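import Pool.Agent.Q66.RX.Stm

/-!
Job API of project RX (MP_c93b6d_al): approximation of the identity on compact sets of bounded
families by finite products of homomorphisms which depend on one coordinate.
-/

set_option autoImplicit false

namespace Pool.Agent.Q71.RX

open Topology Filter Set Pool.Agent.Q66.RX

theorem t_API : S_API := by
  intro I X G _ _ _ _ _ _ F hF C hC W hW
  classical
  obtain ⟨U, hU, hUW⟩ := (F.nhd W).1 hW
  obtain ⟨V, hV, hVU⟩ := exists_nhds_one_split hU
  obtain ⟨V1, hV1, hV1V⟩ := exists_nhds_split_inv hV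
  have hU' : V ∩ V1 ∈ 𝓝 (1 : X) := inter_mem hV hV1
  obtain ⟨V2, hV2, hV2U⟩ := exists_nhds_split_inv hU'
  -- a finite cover of `C`
  have hN : {g : G | ∀ i, F.c g i ∈ V ∩ V1} ∈ 𝓝 (1 : G) :=
    (F.nhd _).2 ⟨_, hU', fun g hg => hg⟩
  obtain ⟨t, -, ht⟩ := hC.elim_nhds_subcover
    (fun y => {x : G | y⁻¹ * x ∈ {g : G | ∀ i, F.c g i ∈ V ∩ V1}}) (by
      intro y _
      have hc : ContinuousAt (fun x : G => y⁻¹ * x) y := by fun_prop
      apply hc.preimage_mem_nhds
      simpa using hN)
  -- finite covers of the sets of members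
  have hK : ∀ y : G, ∃ s : Finset X, ∀ i, ∃ x ∈ s, x⁻¹ * F.c y i ∈ V2 := by
    intro y
    obtain ⟨K, hK, hyK⟩ := (hF (F.c y)).1 ⟨y, rfl⟩
    obtain ⟨s, -, hs⟩ := hK.elim_nhds_subcover (fun x => {z : X | x⁻¹ * z ∈ V2}) (by
      intro x _
      have hc : ContinuousAt (fun z : X => x⁻¹ * z) x := by fun_prop
      apply hc.preimage_mem_nhds
      simpa using hV2)
    refine ⟨s, fun i => ?_⟩
    obtain ⟨x, hx, hxi⟩ := mem_iUnion₂.1 (hs (hyK i))
    exact ⟨x, hx, hxi⟩
  choose s hs using hK
  choose p hps hpV using hs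
  let f : I → (t → X) := fun i y => p y.1 i
  have hf : (range f).Finite := by
    apply (Set.Finite.pi' (fun y : t => (s y.1).finite_toSet)).subset
    rintro _ ⟨i, rfl⟩ y
    exact hps y.1 i
  let r : I → I := fun i => rangeSplitting f ⟨f i, i, rfl⟩
  have hr : ∀ i, f (r i) = f i := fun i => apply_rangeSplitting f ⟨f i, i, rfl⟩
  have hrf : (range r).Finite := by
    have := hf.to_subtype
    apply (Set.finite_range (rangeSplitting f)).subset
    rintro _ ⟨i, rfl⟩
    exact ⟨_, rfl⟩
  have hrU : ∀ y ∈ t, ∀ i, F.c y (r i) / F.c y i ∈ V ∩ V1 := by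
    intro y hy i
    have h1 : p y (r i) = p y i := congrFun (hr i) ⟨y, hy⟩
    have h2 := hpV y (r i)
    rw [h1] at h2
    have h3 := hV2U _ h2 _ (hpV y i)
    rwa [mul_div_mul_left_eq_div] at h3
  -- the homomorphisms
  have hE : ∀ (j : I) (a : X), ∃ g : G, F.c g = fun i => if r i = j then a else 1 := by
    intro j a
    refine (hF _).2 ⟨{a, 1}, (Set.toFinite _).isCompact, fun i => ?_⟩
    by_cases h : r i = j
    · simp [h]
    · simp [h]
  choose e he using hE
  have hone : ∀ j, e j 1 = 1 := by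
    intro j
    apply F.inj
    rw [he, map_one]
    funext i
    simp
  have hmul : ∀ j a b, e j (a * b) = e j a * e j b := by
    intro j a b
    apply F.inj
    rw [map_mul, he, he, he]
    funext i
    by_cases h : r i = j
    · simp [h]
    · simp [h]
  let E0 : I → (X →* G) := fun j => { toFun := e j, map_one' := hone j, map_mul' := hmul j }
  have hcont : ∀ j, Continuous (E0 j) := by
    intro j
    apply continuous_of_continuousAt_one
    intro W' hW'
    have hW1 : W' ∈ 𝓝 (1 : G) := by simpa using hW'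
    obtain ⟨U1, hU1, hUW1⟩ := (F.nhd W').1 hW1
    rw [mem_map]
    filter_upwards [hU1] with a ha
    apply hUW1
    intro i
    change F.c (e j a) i ∈ U1
    rw [he]
    by_cases h : r i = j
    · simpa [h] using ha
    · simpa [h] using mem_of_mem_nhds hU1
  let E : I → (X →ₜ* G) := fun j => { E0 j with continuous_toFun := hcont j }
  refine ⟨hrf.toFinset, E, fun y hy => ?_⟩
  obtain ⟨k, hk, hky⟩ := mem_iUnion₂.1 (ht hy)
  apply hUW
  intro i
  have h1 : F.c (∏ j ∈ hrf.toFinset, E j (F.c y j)) i = F.c y (r i) := by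
    rw [map_prod, Finset.prod_apply]
    have h2 : ∀ j ∈ hrf.toFinset, F.c (E j (F.c y j)) i = if r i = j then F.c y j else 1 := by
      intro j _
      change F.c (e j (F.c y j)) i = _
      rw [he]
    rw [Finset.prod_congr rfl h2, Finset.prod_ite_eq, if_pos]
    rw [Set.Finite.mem_toFinset]
    exact ⟨i, rfl⟩
  have h3 : F.c ((∏ j ∈ hrf.toFinset, E j (F.c y j)) * y⁻¹) i
      = (F.c k (r i) / F.c k i) * (F.c (k⁻¹ * y) (r i) / F.c (k⁻¹ * y) i) := by
    rw [map_mul, Pi.mul_apply, h1, map_inv, Pi.inv_apply, div_mul_div_comm, map_mul, map_inv]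
    simp only [Pi.mul_apply, Pi.inv_apply]
    rw [mul_inv_cancel_left, mul_inv_cancel_left, div_eq_mul_inv]
  rw [h3]
  exact hVU _ (hrU k hk i).1 _ (hV1V _ (hky (r i)).2 _ (hky i).2)

end Pool.Agent.Q71.RX
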